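import Pool.Agent.Helper98.SPR.Stmts

/-!
# Row FIN: the finite theorem
-/

namespace SPR

noncomputable section

open Filter Topology MeasureTheory

namespace FINrow

theorem near_refl {V : Type} (c : V → V → ℕ) (r : ℕ) (x : V) : Near c r x x := by
  induction r with
  | zero => exact rfl
  | succ r ih => exact Or.inl ih

theorem near_mono {V : Type} (c : V → V → ℕ) {r s : ℕ} (h : r ≤ s) {x y : V}
    (hn : Near c r x y) : Near c s x y := by
  induction h with
  | refl => exact hn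
  | step _ ih => exact Or.inl ih

theorem near_cons {V : Type} (c : V → V → ℕ) {r : ℕ} {x y z : V} (hc : c x y ≠ 0)
    (hn : Near c r y z) : Near c (r + 1) x z := by
  induction r generalizing z with
  | zero =>
    have h : y = z := hn
    subst h
    exact Or.inr ⟨x, near_refl c 0 x, hc⟩
  | succ r ih =>
    rcases hn with hn | ⟨u, hu, huz⟩
    · exact Or.inl (ih hn)
    · exact Or.inr ⟨u, ih hu, huz⟩

variable {K : ℝ} {V : Type} {c : V → V → ℕ}

theorem own_tadj (M : DiscModel K c) {d d' : Fin M.N} (h : M.TAdj d d') :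
    M.own d = M.own d' ∨ c (M.own d) (M.own d') ≠ 0 := by
  classical
  rcases h with ⟨_, h⟩ | ⟨_, h⟩ | h
  · left
    rw [← h, M.own_par]
  · left
    rw [← h, M.own_par]
  · right
    intro h0
    rw [← M.e_sum (M.own d) (M.own d')] at h0
    have h1 := (Finset.sum_eq_zero_iff.mp h0) d (by simp)
    have h2 := (Finset.sum_eq_zero_iff.mp h1) d' (by simp)
    exact h h2

theorem own_adj (M : DiscModel K c) (hs : ∀ x y, c x y = c y x) {d d' : Fin M.N}
    (h : M.TG.Adj d d') : M.own d = M.own d' ∨ c (M.own d) (M.own d') ≠ 0 := by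
  rw [DiscModel.TG, SimpleGraph.fromRel_adj] at h
  rcases h.2 with h | h
  · exact own_tadj M h
  · rcases own_tadj M h with h | h
    · exact Or.inl h.symm
    · rw [hs] at h
      exact Or.inr h

theorem near_walk (M : DiscModel K c) (hs : ∀ x y, c x y = c y x) {d d' : Fin M.N}
    (W : M.TG.Walk d d') : Near c W.length (M.own d) (M.own d') := by
  induction W with
  | nil => exact rfl
  | cons h p ih =>
    rw [SimpleGraph.Walk.length_cons]
    rcases own_adj M hs h with h | h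
    · rw [h]
      exact Or.inl ih
    · exact near_cons c h ih

theorem root_inj (M : DiscModel K c) {u v : V} (h : M.root u = M.root v) : u = v := by
  have h1 := M.own_root u
  rw [h, M.own_root] at h1
  exact h1.symm

theorem reg_mono (M : DiscModel K c) {k : ℕ} {o : Fin M.N} {p : ℂ} {d : Fin M.N}
    (h : M.Reg k o p d) : M.Reg (k + 1) o p d := by
  have h0 := M.rad_pos o
  have h1 : (2 : ℝ) ^ k ≤ 2 ^ (k + 1) := pow_le_pow_right₀ (by norm_num) (Nat.le_succ k)
  have h2 : 0 < fd M.ctr M.rad p d := by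
    have := M.rad_pos d
    unfold fd
    positivity
  obtain ⟨ha, hb⟩ := h
  refine ⟨ha.trans (mul_le_mul_of_nonneg_right h1 h0.le), hb.trans_le ?_⟩
  exact mul_le_mul_of_nonneg_right h1 h2.le

theorem ine_mono (M : DiscModel K c) {k : ℕ} {o : Fin M.N} {p : ℂ} {d : Fin M.N}
    (h : M.InE k o p d) : M.InE (k + 1) o p d := by
  obtain ⟨W, hW⟩ := h
  exact ⟨W, fun a ha => reg_mono M (hW a ha)⟩

theorem ine_reg (M : DiscModel K c) {k : ℕ} {o : Fin M.N} {p : ℂ} {d : Fin M.N}
    (h : M.InE k o p d) : M.Reg k o p d := by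
  obtain ⟨W, hW⟩ := h
  exact hW d W.end_mem_support

/-- the end of a walk inside the region is near the start -/
theorem near_of_ine (M : DiscModel K c) (hs : ∀ x y, c x y = c y x) {k : ℕ} {o : Fin M.N} {p : ℂ}
    {d : Fin M.N} (h : M.InE k o p d) {R : ℕ}
    (hR : ∀ T : Finset (Fin M.N), (∀ a ∈ T, M.InE k o p a) → T.card ≤ R) :
    Near c R (M.own o) (M.own d) := by
  classical
  obtain ⟨W, hW⟩ := h
  have h1 : ∀ a ∈ W.bypass.support, M.InE k o p a := by
    intro a ha
    refine ⟨W.bypass.takeUntil a ha, fun x hx => ?_⟩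
    exact hW x (W.support_bypass_subset (W.bypass.support_takeUntil_subset ha hx))
  have h2 := hR W.bypass.support.toFinset (fun a ha => h1 a (List.mem_toFinset.mp ha))
  have h3 : W.bypass.support.toFinset.card = W.bypass.length + 1 := by
    rw [List.toFinset_card_of_nodup (W.bypass_isPath).support_nodup,
      SimpleGraph.Walk.length_support]
  have h4 := near_walk M hs W.bypass
  exact near_mono c (by omega) h4

theorem card_mul_le {n : ℕ} (μ : Fin n → ℝ) (P : Fin n → Prop) [DecidablePred P]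
    (T : Finset (Fin n)) (s β : ℝ) (hμ : ∀ d, 0 ≤ μ d) (hT : ∀ d ∈ T, P d) (hβ : ∀ d ∈ T, β ≤ μ d)
    (hs : ∑ d with P d, μ d ≤ s) : (T.card : ℝ) * β ≤ s := by
  calc (T.card : ℝ) * β = ∑ _d ∈ T, β := by rw [Finset.sum_const, nsmul_eq_mul]
    _ ≤ ∑ d ∈ T, μ d := Finset.sum_le_sum hβ
    _ ≤ ∑ d with P d, μ d :=
        Finset.sum_le_sum_of_subset_of_nonneg (fun d hd => by simp [hT d hd])
          (fun d _ _ => hμ d)
    _ ≤ s := hs

theorem one_add_le {a : ℝ} (ha : 0 < a) (x : ℝ) (hx : 0 ≤ x) :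
    (1 + x) * Real.exp (a / 2 * x) ≤ (1 + 2 / a) * Real.exp (a * x) := by
  have h1 : a / 2 * x + 1 ≤ Real.exp (a / 2 * x) := Real.add_one_le_exp _
  have h2 : 1 + x ≤ (1 + 2 / a) * (a / 2 * x + 1) := by
    have h3 : (1 + 2 / a) * (a / 2 * x + 1) = 1 + x + (a / 2 * x + 2 / a) := by
      field_simp
      ring
    rw [h3]
    have : 0 ≤ a / 2 * x + 2 / a := by positivity
    linarith
  have h4 : Real.exp (a * x) = Real.exp (a / 2 * x) * Real.exp (a / 2 * x) := by
    rw [← Real.exp_add]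
    congr 1
    ring
  rw [h4, ← mul_assoc]
  apply mul_le_mul_of_nonneg_right _ (Real.exp_pos _).le
  exact h2.trans (mul_le_mul_of_nonneg_left h1 (by positivity))

open Classical in
/-- total mass -/
theorem total_le [Fintype V] (M : DiscModel K c) (hK : 1 ≤ K) {a : ℝ} (ha : 0 < a)
    (P : V → Prop) (B : ℝ) (h : ∑ v with P v, Real.exp (a * deg c v) ≤ B) :
    ∑ d : Fin M.N, (if P (M.own d) then Real.exp (a / 2 * deg c (M.own d)) else 0) ≤
      K * (1 + 2 / a) * B := by
  rw [← Finset.sum_fiberwise Finset.univ M.own]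
  have h1 : ∀ v : V, ∑ d with M.own d = v,
      (if P (M.own d) then Real.exp (a / 2 * deg c (M.own d)) else 0) ≤
      if P v then K * (1 + 2 / a) * Real.exp (a * deg c v) else 0 := by
    intro v
    have h2 : ∑ d with M.own d = v,
        (if P (M.own d) then Real.exp (a / 2 * deg c (M.own d)) else 0) =
        ∑ d : Fin M.N with M.own d = v, (if P v then Real.exp (a / 2 * deg c v) else 0) := by
      apply Finset.sum_congr rfl
      intro d hd
      rw [(Finset.mem_filter.mp hd).2]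
    rw [h2, Finset.sum_const, nsmul_eq_mul]
    by_cases hP : P v
    · rw [if_pos hP, if_pos hP]
      have h3 := M.size v
      have h4 := one_add_le ha (deg c v : ℝ) (by positivity)
      calc ((Finset.univ.filter (fun d => M.own d = v)).card : ℝ) * Real.exp (a / 2 * deg c v)
          ≤ K * (1 + deg c v) * Real.exp (a / 2 * deg c v) :=
            mul_le_mul_of_nonneg_right h3 (Real.exp_pos _).le
        _ = K * ((1 + deg c v) * Real.exp (a / 2 * deg c v)) := by ring
        _ ≤ K * ((1 + 2 / a) * Real.exp (a * deg c v)) :=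
            mul_le_mul_of_nonneg_left h4 (by linarith)
        _ = K * (1 + 2 / a) * Real.exp (a * deg c v) := by ring
    · rw [if_neg hP, if_neg hP, mul_zero]
  calc ∑ v : V, ∑ d with M.own d = v,
        (if P (M.own d) then Real.exp (a / 2 * deg c (M.own d)) else 0)
      ≤ ∑ v : V, (if P v then K * (1 + 2 / a) * Real.exp (a * deg c v) else 0) :=
        Finset.sum_le_sum (fun v _ => h1 v)
    _ = K * (1 + 2 / a) * ∑ v with P v, Real.exp (a * deg c v) := by
        rw [← Finset.sum_filter, Finset.mul_sum]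
    _ ≤ K * (1 + 2 / a) * B := mul_le_mul_of_nonneg_left h (by positivity)

open Classical in
theorem net_le (M : DiscModel K c) (Net : Finset V) :
    ∑ d : Fin M.N, (if ∃ z ∈ Net, M.root z = d then (1 : ℝ) else 0) ≤ (Net.card : ℝ) := by
  rw [← Finset.sum_filter, Finset.sum_const, nsmul_eq_mul, mul_one]
  have h1 : Finset.univ.filter (fun d => ∃ z ∈ Net, M.root z = d) ⊆ Net.image M.root := by
    intro d hd
    obtain ⟨z, hz, h⟩ := (Finset.mem_filter.mp hd).2
    exact Finset.mem_image.mpr ⟨z, hz, h⟩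
  exact_mod_cast (Finset.card_le_card h1).trans Finset.card_image_le

/-- the numbers -/
theorem log_le (b q k : ℕ) (T0 s Ce : ℝ) (t : ℕ) (hk : 1 ≤ k) (hT0 : 0 ≤ T0) (hs : 1 ≤ s)
    (hCe : 1 ≤ Ce) (hCk : Real.log Ce ≤ k) (hsC : s ≤ ((2 : ℝ) ^ (k + 1)) ^ 4 * Ce)
    (ht1 : 1 ≤ t) (ht : (t : ℝ) ≤ T0 * s ^ 2 + 2) :
    Real.log (s * ((2 * t ^ q : ℕ) : ℝ) ^ b) ≤
      ((1 + 2 * (b * q)) * 9 + (b * Real.log 2 + b * q * Real.log (T0 + 2))) * k := by
  have hk' : (1 : ℝ) ≤ k := by exact_mod_cast hk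
  have ht1' : (1 : ℝ) ≤ t := by exact_mod_cast ht1
  have hlog2 : Real.log 2 ≤ 1 := by
    have := Real.log_le_sub_one_of_pos (show (0 : ℝ) < 2 by norm_num)
    linarith
  have hlog2' : 0 ≤ Real.log 2 := Real.log_nonneg (by norm_num)
  have h1 : Real.log s ≤ 9 * k := by
    calc Real.log s ≤ Real.log (((2 : ℝ) ^ (k + 1)) ^ 4 * Ce) := Real.log_le_log (by linarith) hsC
      _ = 4 * ((k + 1) * Real.log 2) + Real.log Ce := by
          rw [Real.log_mul (by positivity) (by positivity), Real.log_pow, Real.log_pow]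
          push_cast
          ring
      _ ≤ 4 * ((k + 1) * 1) + k := by
          have : ((k : ℝ) + 1) * Real.log 2 ≤ (k + 1) * 1 :=
            mul_le_mul_of_nonneg_left hlog2 (by positivity)
          linarith
      _ ≤ 9 * k := by linarith
  have hs0 : 0 ≤ Real.log s := Real.log_nonneg hs
  have h2 : Real.log t ≤ Real.log (T0 + 2) + 2 * Real.log s := by
    have h3 : (t : ℝ) ≤ (T0 + 2) * s ^ 2 := by
      have : (1 : ℝ) ≤ s ^ 2 := one_le_pow₀ hs
      nlinarith
    calc Real.log t ≤ Real.log ((T0 + 2) * s ^ 2) := Real.log_le_log (by linarith) h3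
      _ = Real.log (T0 + 2) + 2 * Real.log s := by
          rw [Real.log_mul (by positivity) (by positivity), Real.log_pow]
          push_cast
          ring
  have h4 : Real.log (s * ((2 * t ^ q : ℕ) : ℝ) ^ b) =
      Real.log s + b * (Real.log 2 + q * Real.log t) := by
    push_cast
    rw [Real.log_mul (by positivity) (by positivity), Real.log_pow,
      Real.log_mul (by norm_num) (by positivity), Real.log_pow]
  have h5 : 0 ≤ Real.log (T0 + 2) := Real.log_nonneg (by linarith)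
  rw [h4]
  have h6 : (b : ℝ) * (Real.log 2 + q * Real.log t) ≤
      b * (Real.log 2 + q * (Real.log (T0 + 2) + 2 * Real.log s)) := by
    apply mul_le_mul_of_nonneg_left _ (by positivity)
    have := mul_le_mul_of_nonneg_left h2 (Nat.cast_nonneg (α := ℝ) q)
    linarith
  have h7 : Real.log s + b * (Real.log 2 + q * (Real.log (T0 + 2) + 2 * Real.log s)) =
      (1 + 2 * (b * q)) * Real.log s + (b * Real.log 2 + b * q * Real.log (T0 + 2)) := by ring
  have h8 : (1 + 2 * ((b : ℝ) * q)) * Real.log s ≤ (1 + 2 * (b * q)) * (9 * k) :=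
    mul_le_mul_of_nonneg_left h1 (by positivity)
  have h9 : (b * Real.log 2 + b * q * Real.log (T0 + 2)) * 1 ≤
      (b * Real.log 2 + b * q * Real.log (T0 + 2)) * (k : ℝ) :=
    mul_le_mul_of_nonneg_left hk' (by positivity)
  nlinarith

end FINrow

open FINrow

open Classical in
/-- Row FIN. -/
theorem st_FIN : ST_MAG → ST_HT → ST_EN → ST_FIN := by
  rintro ⟨C0, hC0, hMAG⟩ hHT hEN K Cst a b q j m hK hCst ha hjq hmq
  obtain ⟨t0, ht0⟩ := hHT K (a / 2) b q j m hK (by positivity) hjq hmq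
  obtain ⟨C5, hC5, hE⟩ := hEN K hK
  obtain ⟨C', hC'⟩ : ∃ C' : ℝ, C' = Cst + K * (1 + 2 / a) * Cst := ⟨_, rfl⟩
  have hC'pos : 0 < C' := by rw [hC']; positivity
  obtain ⟨T0, hT0⟩ : ∃ T0 : ℝ, T0 = max t0 0 := ⟨_, rfl⟩
  have hT00 : 0 ≤ T0 := hT0 ▸ le_max_right _ _
  have hT0t : t0 ≤ T0 := hT0 ▸ le_max_left _ _
  obtain ⟨c1, hc1⟩ : ∃ c1 : ℝ, c1 = (1 + 2 * ((b : ℝ) * q)) * 9 +
    (b * Real.log 2 + b * q * Real.log (T0 + 2)) := ⟨_, rfl⟩
  have hc10 : 0 ≤ c1 := by
    have h1 : 0 ≤ Real.log 2 := Real.log_nonneg (by norm_num)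
    have h2 : 0 ≤ Real.log (T0 + 2) := Real.log_nonneg (by linarith)
    rw [hc1]
    positivity
  refine ⟨C5 * (1 + 2 / a * c1), by positivity, fun ε hε => ?_⟩
  obtain ⟨Ce, hCe⟩ : ∃ Ce : ℝ, Ce = max 1 (C0 * C' / ε) := ⟨_, rfl⟩
  have hCe1 : 1 ≤ Ce := hCe ▸ le_max_left _ _
  refine ⟨max 1 ⌈Real.log Ce⌉₊, fun k hk => ?_⟩
  have hk1 : 1 ≤ k := (le_max_left _ _).trans hk
  have hk1' : (1 : ℝ) ≤ k := by exact_mod_cast hk1
  have hkC : Real.log Ce ≤ k :=
    (Nat.le_ceil _).trans (by exact_mod_cast (le_max_right _ _).trans hk)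
  obtain ⟨A1, hA1⟩ : ∃ A1 : ℝ, A1 = (2 : ℝ) ^ (k + 1) := ⟨_, rfl⟩
  have hA11 : 1 ≤ A1 := hA1 ▸ one_le_pow₀ (by norm_num)
  obtain ⟨s, hs⟩ : ∃ s : ℝ, s = max 1 (C0 * A1 ^ 4 * C' / ε) := ⟨_, rfl⟩
  have hs1 : 1 ≤ s := hs ▸ le_max_left _ _
  have hsC : s ≤ A1 ^ 4 * Ce := by
    rw [hs]
    apply max_le
    · calc (1 : ℝ) = 1 * 1 := by ring
        _ ≤ A1 ^ 4 * Ce := mul_le_mul (one_le_pow₀ hA11) hCe1 (by norm_num) (by positivity)
    · calc C0 * A1 ^ 4 * C' / ε = A1 ^ 4 * (C0 * C' / ε) := by ring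
        _ ≤ A1 ^ 4 * Ce := mul_le_mul_of_nonneg_left (hCe ▸ le_max_right _ _) (by positivity)
  obtain ⟨t, ht⟩ : ∃ t : ℕ, t = ⌈T0 * s ^ 2⌉₊ + 1 := ⟨_, rfl⟩
  have ht1 : 1 ≤ t := by omega
  have ht1' : (1 : ℝ) ≤ t := by exact_mod_cast ht1
  have htlow : t0 * s ^ 2 ≤ t := by
    have h1 : t0 * s ^ 2 ≤ T0 * s ^ 2 := mul_le_mul_of_nonneg_right hT0t (by positivity)
    have h2 : T0 * s ^ 2 ≤ ⌈T0 * s ^ 2⌉₊ := Nat.le_ceil _
    rw [ht]
    push_cast
    linarith
  have htup : (t : ℝ) ≤ T0 * s ^ 2 + 2 := by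
    have h2 : (⌈T0 * s ^ 2⌉₊ : ℝ) < T0 * s ^ 2 + 1 := Nat.ceil_lt_add_one (by positivity)
    rw [ht]
    push_cast
    linarith
  obtain ⟨h, hh⟩ : ∃ h : ℕ, h = 2 * t ^ q := ⟨_, rfl⟩
  have htq : 1 ≤ t ^ q := Nat.one_le_pow _ _ ht1
  have hh1 : 1 ≤ h := by omega
  have hh1' : (1 : ℝ) ≤ h := by exact_mod_cast hh1
  have hlog := log_le b q k T0 s Ce t hk1 hT00 hs1 hCe1 hkC (by rw [← hA1]; exact hsC) ht1 htup
  rw [← hh, ← hc1] at hlog
  have hsh1 : 1 ≤ s * (h : ℝ) ^ b := by
    calc (1 : ℝ) = 1 * 1 := by ring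
      _ ≤ s * (h : ℝ) ^ b := mul_le_mul hs1 (one_le_pow₀ hh1') (by norm_num) (by positivity)
  refine ⟨h, t, ⌈s * (h : ℝ) ^ b⌉₊, hh1, ht1, ?_⟩
  intro V _ c S hsym hM hSne hdegs hnet
  obtain ⟨M⟩ := hM
  obtain ⟨Net, hNetc, hNet⟩ := hnet
  -- the measure
  obtain ⟨μ, hμ⟩ : ∃ μ : Fin M.N → ℝ, μ = fun d =>
    (if ∃ z ∈ Net, M.root z = d then (1 : ℝ) else 0) / (t : ℝ) ^ m +
    (if NearSet c h S (M.own d) then Real.exp (a / 2 * deg c (M.own d)) else 0) / (h : ℝ) ^ b :=
    ⟨_, rfl⟩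
  have htm : 0 < (t : ℝ) ^ m := by positivity
  have hhb : 0 < (h : ℝ) ^ b := by positivity
  have hμ1 : ∀ d, 0 ≤ (if ∃ z ∈ Net, M.root z = d then (1 : ℝ) else 0) / (t : ℝ) ^ m := by
    intro d
    split_ifs <;> positivity
  have hμ2 : ∀ d, 0 ≤ (if NearSet c h S (M.own d) then Real.exp (a / 2 * deg c (M.own d)) else 0) /
      (h : ℝ) ^ b := by
    intro d
    split_ifs <;> positivity
  have hμ0 : ∀ d, 0 ≤ μ d := by
    intro d
    rw [hμ]
    exact add_nonneg (hμ1 d) (hμ2 d)
  have htot : ∑ d, μ d ≤ C' * S.card := by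
    rw [hμ]
    rw [Finset.sum_add_distrib, ← Finset.sum_div, ← Finset.sum_div]
    have h1 : (∑ d : Fin M.N, (if ∃ z ∈ Net, M.root z = d then (1 : ℝ) else 0)) / (t : ℝ) ^ m ≤
        Cst * S.card := by
      rw [div_le_iff₀ htm]
      calc _ ≤ (Net.card : ℝ) := net_le M Net
        _ ≤ Cst * t ^ m * S.card := hNetc
        _ = Cst * S.card * t ^ m := by ring
    have h2 : (∑ d : Fin M.N, (if NearSet c h S (M.own d) then
        Real.exp (a / 2 * deg c (M.own d)) else 0)) / (h : ℝ) ^ b ≤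
        K * (1 + 2 / a) * (Cst * S.card) := by
      rw [div_le_iff₀ hhb]
      calc _ ≤ K * (1 + 2 / a) * (Cst * h ^ b * S.card) :=
            total_le M hK ha (fun v => NearSet c h S v) _ hdegs
        _ = K * (1 + 2 / a) * (Cst * S.card) * h ^ b := by ring
    calc _ ≤ Cst * S.card + K * (1 + 2 / a) * (Cst * S.card) := add_le_add h1 h2
      _ = C' * S.card := by rw [hC']; ring
  -- the magic lemma
  have hmag := hMAG M.N M.ctr M.rad (S.image M.root) μ A1 s M.rad_pos M.disj hμ0 hA11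
    (by linarith)
  -- not bad implies good
  have hgood : ∀ w ∈ S, ¬ (∀ p : ℂ, s < ∑ d with (fd M.ctr M.rad (M.ctr (M.root w)) d ≤
      A1 * M.rad (M.root w) ∧ M.rad (M.root w) < A1 * fd M.ctr M.rad p d), μ d) →
      Good (C5 * (1 + 2 / a * c1)) k ⌈s * (h : ℝ) ^ b⌉₊ c w := by
    intro w hw hb
    push Not at hb
    obtain ⟨p, hp⟩ := hb
    have hreg : ∀ d, M.Reg (k + 1) (M.root w) p d ↔ (fd M.ctr M.rad (M.ctr (M.root w)) d ≤
      A1 * M.rad (M.root w) ∧ M.rad (M.root w) < A1 * fd M.ctr M.rad p d) := by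
      intro d
      rw [hA1]
      exact Iff.rfl
    -- net points
    have hnetc : ((Net.filter (fun z => M.InE (k + 1) (M.root w) p (M.root z))).card : ℝ) ≤
        s * t ^ m := by
      have h1 := card_mul_le μ _ ((Net.filter (fun z =>
        M.InE (k + 1) (M.root w) p (M.root z))).image M.root) s (1 / (t : ℝ) ^ m) hμ0
        (fun d hd => by
          obtain ⟨z, hz, rfl⟩ := Finset.mem_image.mp hd
          exact (hreg _).mp (ine_reg M (Finset.mem_filter.mp hz).2))
        (fun d hd => by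
          obtain ⟨z, hz, rfl⟩ := Finset.mem_image.mp hd
          have h2 : ∃ z' ∈ Net, M.root z' = M.root z := ⟨z, (Finset.mem_filter.mp hz).1, rfl⟩
          have h3 := hμ2 (M.root z)
          rw [hμ]
          simp only [h2, if_true]
          linarith) hp
      rw [Finset.card_image_of_injective _ (fun u v huv => root_inj M huv), mul_one_div,
        div_le_iff₀ htm] at h1
      exact h1
    -- degrees
    have hdeg : ∀ d, M.InE (k + 1) (M.root w) p d → NearSet c h S (M.own d) →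
        Real.exp (a / 2 * deg c (M.own d)) ≤ s * (h : ℝ) ^ b := by
      intro d hd hn
      have h1 := card_mul_le μ _ {d} s (Real.exp (a / 2 * deg c (M.own d)) / (h : ℝ) ^ b) hμ0
        (fun d' hd' => by
          rw [Finset.mem_singleton.mp hd']
          exact (hreg _).mp (ine_reg M hd))
        (fun d' hd' => by
          rw [Finset.mem_singleton.mp hd']
          have h3 := hμ1 d
          rw [hμ]
          simp only [hn, if_true]
          linarith) hp
      rw [Finset.card_singleton, Nat.cast_one, one_mul, div_le_iff₀ hhb] at h1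
      exact h1
    have hheight := ht0 s t hs1 htlow V c M S Net w p k hsym hw hNet hnetc (by
      intro d hd hn
      have := hdeg d hd (by rw [hh]; exact hn)
      rw [hh] at this
      push_cast at this
      exact this)
    have hnear : ∀ d, M.InE k (M.root w) p d → NearSet c h S (M.own d) := by
      intro d hd
      obtain ⟨x, hx, hxd⟩ := hheight d hd
      exact ⟨x, hx, near_mono c (by omega) hxd⟩
    have hdegle : ∀ d, M.InE k (M.root w) p d → (deg c (M.own d) : ℝ) ≤
        1 + 2 / a * Real.log (s * (h : ℝ) ^ b) := by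
      intro d hd
      have h1 := hdeg d (ine_mono M hd) (hnear d hd)
      have h2 : a / 2 * deg c (M.own d) ≤ Real.log (s * (h : ℝ) ^ b) := by
        rw [← Real.log_exp (a / 2 * deg c (M.own d))]
        exact Real.log_le_log (Real.exp_pos _) h1
      have h3 : (deg c (M.own d) : ℝ) = 2 / a * (a / 2 * deg c (M.own d)) := by
        field_simp
      rw [h3]
      have := mul_le_mul_of_nonneg_left h2 (show 0 ≤ 2 / a by positivity)
      linarith
    have hcount : ∀ T : Finset (Fin M.N), (∀ d ∈ T, M.InE k (M.root w) p d) →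
        T.card ≤ ⌈s * (h : ℝ) ^ b⌉₊ := by
      intro T hT
      have h1 := card_mul_le μ _ T s (1 / (h : ℝ) ^ b) hμ0
        (fun d hd => (hreg _).mp (ine_reg M (ine_mono M (hT d hd))))
        (fun d hd => by
          have hn := hnear d (hT d hd)
          have h3 := hμ1 d
          have h4 : 1 / (h : ℝ) ^ b ≤ Real.exp (a / 2 * deg c (M.own d)) / (h : ℝ) ^ b :=
            div_le_div_of_nonneg_right (Real.one_le_exp (by positivity)) hhb.le
          rw [hμ]
          simp only [hn, if_true]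
          linarith) hp
      rw [mul_one_div, div_le_iff₀ hhb] at h1
      exact_mod_cast h1.trans (Nat.le_ceil _)
    have hlog0 : 0 ≤ Real.log (s * (h : ℝ) ^ b) := Real.log_nonneg hsh1
    obtain ⟨U, hU01, hUw, hUs, hUE, hUg⟩ := hE V c M w p k
      (1 + 2 / a * Real.log (s * (h : ℝ) ^ b)) hsym hk1
      (by
        have : 0 ≤ 2 / a * Real.log (s * (h : ℝ) ^ b) := by positivity
        linarith) hdegle
    refine ⟨U, hU01, hUw, ?_, ?_, ?_⟩
    · intro v hv
      have h1 := near_of_ine M hsym (hUs v hv) hcount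
      rw [M.own_root, M.own_root] at h1
      exact h1
    · refine hUE.trans ?_
      rw [div_le_iff₀ (by linarith), mul_assoc]
      apply mul_le_mul_of_nonneg_left _ hC5.le
      have h1 : 2 / a * Real.log (s * (h : ℝ) ^ b) ≤ 2 / a * (c1 * k) :=
        mul_le_mul_of_nonneg_left hlog (by positivity)
      have h2 : (1 + 2 / a * c1) * k = k + 2 / a * (c1 * k) := by ring
      rw [h2]
      linarith
    · intro x y hxy
      refine (hUg x y hxy).trans ?_
      apply div_le_div_of_nonneg_right _ (by linarith)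
      apply mul_le_mul_of_nonneg_right _ (by positivity)
      have : 0 ≤ 2 / a * c1 := by positivity
      nlinarith
  -- conclusion
  have hcard : ((S.filter (fun w => ¬ Good (C5 * (1 + 2 / a * c1)) k ⌈s * (h : ℝ) ^ b⌉₊ c w)).card :
      ℝ) ≤ (((S.image M.root).filter (fun w => ∀ p : ℂ,
      s < ∑ d with (fd M.ctr M.rad (M.ctr w) d ≤ A1 * M.rad w ∧
        M.rad w < A1 * fd M.ctr M.rad p d), μ d)).card : ℝ) := by
    have h1 : (S.filter (fun w => ¬ Good (C5 * (1 + 2 / a * c1)) k ⌈s * (h : ℝ) ^ b⌉₊ c w)).image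
        M.root ⊆ (S.image M.root).filter (fun w => ∀ p : ℂ,
        s < ∑ d with (fd M.ctr M.rad (M.ctr w) d ≤ A1 * M.rad w ∧
        M.rad w < A1 * fd M.ctr M.rad p d), μ d) := by
      intro d hd
      obtain ⟨w, hw, rfl⟩ := Finset.mem_image.mp hd
      obtain ⟨hwS, hwG⟩ := Finset.mem_filter.mp hw
      refine Finset.mem_filter.mpr ⟨Finset.mem_image_of_mem _ hwS, ?_⟩
      by_contra hb
      exact hwG (hgood w hwS hb)
    have h2 := Finset.card_le_card h1
    rw [Finset.card_image_of_injective _ (fun u v huv => root_inj M huv)] at h2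
    exact_mod_cast h2
  refine hcard.trans ?_
  have hs0 : 0 < s := by linarith
  have h3 : C0 * A1 ^ 4 * C' ≤ ε * s := by
    have h4 : C0 * A1 ^ 4 * C' / ε ≤ s := hs ▸ le_max_right _ _
    rw [div_le_iff₀ hε] at h4
    linarith
  have h5 : s * (((S.image M.root).filter (fun w => ∀ p : ℂ,
      s < ∑ d with (fd M.ctr M.rad (M.ctr w) d ≤ A1 * M.rad w ∧
        M.rad w < A1 * fd M.ctr M.rad p d), μ d)).card : ℝ) ≤ s * (ε * S.card) := by
    calc _ ≤ C0 * A1 ^ 4 * ∑ d, μ d := hmag
      _ ≤ C0 * A1 ^ 4 * (C' * S.card) := mul_le_mul_of_nonneg_left htot (by positivity)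
      _ = (C0 * A1 ^ 4 * C') * S.card := by ring
      _ ≤ (ε * s) * S.card := mul_le_mul_of_nonneg_right h3 (by positivity)
      _ = s * (ε * S.card) := by ring
  exact le_of_mul_le_mul_left h5 hs0

end

end SPR
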